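import Mathlib

set_option autoImplicit false

namespace Pool.Agent.Results.MP_5e9fbd_co.Four

def ed : Fin 6 → Fin 4 × Fin 4 := ![(0, 1), (0, 2), (0, 3), (1, 2), (1, 3), (2, 3)]

def gr (s : Finset (Fin 6)) : SimpleGraph (Fin 4) where
  Adj u v := ∃ i ∈ s, ed i = (u, v) ∨ ed i = (v, u)
  symm := ⟨fun _ _ ⟨i, a, b⟩ => ⟨i, a, b.symm⟩⟩
  loopless := ⟨fun v ⟨i, _, b⟩ => (by decide : ∀ i v, ¬ (ed i = (v, v) ∨ ed i = (v, v))) i v b⟩

instance (s : Finset (Fin 6)) : DecidableRel (gr s).Adj := fun _ _ => by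
  unfold gr; infer_instance

lemma inj : Function.Injective gr := by
  intro s t h
  have key : ∀ (s : Finset (Fin 6)) i, i ∈ s ↔ (gr s).Adj (ed i).1 (ed i).2 := by decide +kernel
  ext i
  rw [key, key, h]

lemma two (s : Finset (Fin 6)) (hs : 2 ≤ s.card) : Nat.card (gr s).ConnectedComponent ≤ 2 := by
  have key : ∀ s : Finset (Fin 6), 2 ≤ s.card → ∃ a b : Fin 4, ∀ v, v = a ∨ v = b ∨
      (gr s).Adj v a ∨ (gr s).Adj v b := by decide +kernel
  obtain ⟨a, b, h⟩ := key s hs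
  refine le_trans (Nat.card_le_card_of_surjective
    (fun x : Fin 2 => (gr s).connectedComponentMk (![a, b] x)) fun c => ?_) (by simp)
  induction c using SimpleGraph.ConnectedComponent.ind with
  | h v =>
    rcases h v with rfl | rfl | h | h
    · exact ⟨0, rfl⟩
    · exact ⟨1, rfl⟩
    · exact ⟨0, SimpleGraph.ConnectedComponent.sound h.symm.reachable⟩
    · exact ⟨1, SimpleGraph.ConnectedComponent.sound h.symm.reachable⟩

/-- For n = 4 a family of 22 graphs beats the conjectured bound 20. -/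
theorem result : ∃ (n : ℕ) (F : Finset (SimpleGraph (Fin n))), 3 ≤ n ∧
    (∀ G ∈ F, ∀ G' ∈ F, G ≠ G' → Nat.card (G ⊓ G').ConnectedComponent ≤ 2) ∧
    (n + 1) * 2 ^ n.choose 2 < F.card * 2 ^ n := by
  refine ⟨4, (Finset.univ.filter fun s : Finset (Fin 6) => 4 ≤ s.card).map ⟨gr, inj⟩,
    by norm_num, fun G hG G' hG' _ => ?_, by rw [Finset.card_map]; decide +kernel⟩
  obtain ⟨s, hs, rfl⟩ := Finset.mem_map.1 hG
  obtain ⟨t, ht, rfl⟩ := Finset.mem_map.1 hG'
  have e : gr s ⊓ gr t = gr (s ∩ t) := by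
    have key : ∀ (s t : Finset (Fin 6)) u v, (gr s).Adj u v ∧ (gr t).Adj u v ↔
        (gr (s ∩ t)).Adj u v := by
      intro s t u v
      have : ∀ i j u v, (ed i = (u, v) ∨ ed i = (v, u)) → (ed j = (u, v) ∨ ed j = (v, u)) →
          i = j := by decide +kernel
      constructor
      · rintro ⟨⟨i, a, b⟩, j, c, d⟩
        obtain rfl := this i j u v b d
        exact ⟨i, Finset.mem_inter.2 ⟨a, c⟩, b⟩
      · rintro ⟨i, a, b⟩
        exact ⟨⟨i, (Finset.mem_inter.1 a).1, b⟩, i, (Finset.mem_inter.1 a).2, b⟩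
    ext u v; exact key s t u v
  change Nat.card (gr s ⊓ gr t).ConnectedComponent ≤ 2
  rw [e]
  refine two _ ?_
  have h1 := Finset.card_union_add_card_inter s t
  have h2 := Finset.card_le_univ (s ∪ t)
  have h3 := (Finset.mem_filter.1 hs).2
  have h4 := (Finset.mem_filter.1 ht).2
  simp only [Fintype.card_fin] at h2
  omega

end Pool.Agent.Results.MP_5e9fbd_co.Four
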